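import Pool.Agent.X88.HI.D

/-!
# Generic Moebius transformations move countably many points into a dense open set
-/

set_option autoImplicit false

open Set Filter Topology Polynomial
open scoped OnePoint

namespace Pool.Agent.X88.HI

open Pool.Agent.Helper114.Herman Pool.Agent.Helper114.Konig
open Pool.Agent.H762R2.Rt (Sinks)

/-- The determinant of the matrix `(a, b; c, e)`. -/
def dt (M : ℂ × ℂ × ℂ × ℂ) : ℂ := M.1 * M.2.2.2 - M.2.1 * M.2.2.1

theorem continuous_dt : Continuous dt := by unfold dt; fun_prop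

theorem dt_dense {W : Set (ℂ × ℂ × ℂ × ℂ)} (hW : IsOpen W) {M : ℂ × ℂ × ℂ × ℂ} (hM : M ∈ W) :
    ∃ M' ∈ W, dt M' ≠ 0 := by
  obtain ⟨a, b, c, e⟩ := M
  -- the matrices `M + t`
  have hcont : Continuous (fun t : ℂ => ((a + t, b, c, e + t) : ℂ × ℂ × ℂ × ℂ)) := by fun_prop
  have h1 : ∀ᶠ t in 𝓝 (0 : ℂ), ((a + t, b, c, e + t) : ℂ × ℂ × ℂ × ℂ) ∈ W := by
    apply hcont.continuousAt.eventually
    apply hW.mem_nhds
    simpa using hM
  set P : ℂ[X] := (C a + X) * (C e + X) - C (b * c) with hP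
  have hP0 : P ≠ 0 := by
    intro h0
    have h2 := congrArg (fun q : ℂ[X] => q.eval 0) h0
    have h3 := congrArg (fun q : ℂ[X] => q.eval 1) h0
    have h4 := congrArg (fun q : ℂ[X] => q.eval (-1)) h0
    simp only [hP, eval_sub, eval_mul, eval_add, eval_C, eval_X, eval_zero] at h2 h3 h4
    have h5 : (2 : ℂ) = 0 := by linear_combination h3 + h4 - 2 * h2
    norm_num at h5
  have h2 : ∀ᶠ t in 𝓝[≠] (0 : ℂ), P.eval t ≠ 0 := by
    have hfin : (P.roots.toFinset : Set ℂ).Finite := Finset.finite_toSet _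
    have h3 : ∀ᶠ t in 𝓝[≠] (0 : ℂ), t ∉ ((P.roots.toFinset : Set ℂ) \ {0}) :=
      eventually_nhdsWithin_of_eventually_nhds
        ((hfin.subset Set.sdiff_subset).isClosed.isOpen_compl.mem_nhds (by simp))
    filter_upwards [h3, self_mem_nhdsWithin] with t ht ht0 h0
    apply ht
    refine ⟨?_, ht0⟩
    rw [Finset.mem_coe, Multiset.mem_toFinset, mem_roots hP0]
    exact h0
  obtain ⟨t, ht1, ht2⟩ := ((h1.filter_mono nhdsWithin_le_nhds).and h2).exists
  refine ⟨_, ht1, ?_⟩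
  simp only [hP, eval_sub, eval_mul, eval_add, eval_C, eval_X] at ht2
  simpa [dt] using ht2

/-- The set of good matrices for the point `pr u v`. -/
def Gd (A : Set (OnePoint ℂ)) (u v : ℂ) : Set (ℂ × ℂ × ℂ × ℂ) :=
  {M | dt M ≠ 0 ∧ pr (M.1 * u + M.2.1 * v) (M.2.2.1 * u + M.2.2.2 * v) ∈ A}

theorem dt_ne {M : ℂ × ℂ × ℂ × ℂ} (h : dt M ≠ 0) {u v : ℂ} (huv : u ≠ 0 ∨ v ≠ 0) :
    M.1 * u + M.2.1 * v ≠ 0 ∨ M.2.2.1 * u + M.2.2.2 * v ≠ 0 := by
  obtain ⟨a, b, c, e⟩ := M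
  simp only [dt] at h ⊢
  by_contra hcon
  push Not at hcon
  obtain ⟨h1, h2⟩ := hcon
  rcases huv with hu | hv
  · apply hu
    have : (a * e - b * c) * u = 0 := by linear_combination e * h1 - b * h2
    exact (mul_eq_zero.1 this).resolve_left h
  · apply hv
    have : (a * e - b * c) * v = 0 := by linear_combination a * h2 - c * h1
    exact (mul_eq_zero.1 this).resolve_left h

theorem isOpen_Gd {A : Set (OnePoint ℂ)} (hA : IsOpen A) {u v : ℂ} (huv : u ≠ 0 ∨ v ≠ 0) :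
    IsOpen (Gd A u v) := by
  rw [isOpen_iff_mem_nhds]
  rintro M ⟨h1, h2⟩
  have h3 : ∀ᶠ M' in 𝓝 M, dt M' ≠ 0 := continuous_dt.continuousAt.eventually_ne h1
  have h4 : ContinuousAt (fun M' : ℂ × ℂ × ℂ × ℂ =>
      pr (M'.1 * u + M'.2.1 * v) (M'.2.2.1 * u + M'.2.2.2 * v)) M :=
    ContinuousAt.comp (f := fun M' : ℂ × ℂ × ℂ × ℂ =>
      (M'.1 * u + M'.2.1 * v, M'.2.2.1 * u + M'.2.2.2 * v))
      (g := fun p : ℂ × ℂ => pr p.1 p.2) (continuousAt_pr (dt_ne h1 huv)) (by fun_prop)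
  filter_upwards [h3, h4.preimage_mem_nhds (hA.mem_nhds h2)] with M' h5 h6
  exact ⟨h5, h6⟩

theorem pr_dense {A : Set (OnePoint ℂ)} (hA : Dense A) {s t : ℂ} (hst : s ≠ 0 ∨ t ≠ 0)
    {N : Set (ℂ × ℂ)} (hN : N ∈ 𝓝 (s, t)) : ∃ p ∈ N, pr p.1 p.2 ∈ A := by
  by_cases ht : t = 0
  · have hs : s ≠ 0 := by simpa [ht] using hst
    subst ht
    -- the points `(s, t')`
    have h1 : ∀ᶠ t' in 𝓝 (0 : ℂ), ((s, t') : ℂ × ℂ) ∈ N :=
      (Continuous.prodMk_right s).continuousAt.eventually hN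
    obtain ⟨δ, hδ, h2⟩ := Metric.eventually_nhds_iff.1 h1
    have h3 : kap true '' Metric.ball 0 (δ / ‖s‖) ∈ 𝓝 (kap true 0) := by
      rw [nhds_kap]
      exact image_mem_map (Metric.ball_mem_nhds _ (div_pos hδ (norm_pos_iff.2 hs)))
    obtain ⟨y, hyA, w, hw, rfl⟩ := hA.inter_nhds_nonempty h3
    refine ⟨(s, w * s), h2 ?_, ?_⟩
    · rw [dist_zero_right, norm_mul]
      rw [Metric.mem_ball, dist_zero_right, lt_div_iff₀ (norm_pos_iff.2 hs)] at hw
      exact hw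
    · have e : pr s (w * s) = kap true w := by
        rw [kap_true, ← pr_one, sinv_pr (Or.inr one_ne_zero)]
        have := pr_smul (u := 1) (v := w) hs
        rw [mul_one, mul_comm] at this
        exact this
      rw [e]
      exact hyA
  · have h1 : ∀ᶠ s' in 𝓝 s, ((s', t) : ℂ × ℂ) ∈ N :=
      (Continuous.prodMk_left t).continuousAt.eventually hN
    obtain ⟨δ, hδ, h2⟩ := Metric.eventually_nhds_iff.1 h1
    have h3 : kap false '' Metric.ball (s / t) (δ / ‖t‖) ∈ 𝓝 (kap false (s / t)) := by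
      rw [nhds_kap]
      exact image_mem_map (Metric.ball_mem_nhds _ (div_pos hδ (norm_pos_iff.2 ht)))
    obtain ⟨y, hyA, w, hw, rfl⟩ := hA.inter_nhds_nonempty h3
    refine ⟨(w * t, t), h2 ?_, ?_⟩
    · rw [Metric.mem_ball, dist_eq_norm, lt_div_iff₀ (norm_pos_iff.2 ht), ← norm_mul, sub_mul,
        div_mul_cancel₀ _ ht] at hw
      rw [dist_eq_norm]
      exact hw
    · have e : pr (w * t) t = kap false w := by
        rw [kap_false, pr_ne ht, mul_div_cancel_right₀ _ ht]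
      rw [e]
      exact hyA

theorem dense_Gd {A : Set (OnePoint ℂ)} (hA : Dense A) {u v : ℂ} (huv : u ≠ 0 ∨ v ≠ 0) :
    Dense (Gd A u v) := by
  rw [dense_iff_inter_open]
  rintro W hW ⟨M, hM⟩
  obtain ⟨M₁, hM₁, hdt⟩ := dt_dense hW hM
  obtain ⟨α, β, hαβ⟩ : ∃ α β : ℂ, α * u + β * v = 1 := by
    rcases huv with hu | hv
    · exact ⟨u⁻¹, 0, by rw [inv_mul_cancel₀ hu]; ring⟩
    · exact ⟨0, v⁻¹, by rw [inv_mul_cancel₀ hv]; ring⟩
  have hne := dt_ne hdt huv
  obtain ⟨a, b, c, e⟩ := M₁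
  simp only at hne
  set s₁ := a * u + b * v with hs₁
  set t₁ := c * u + e * v with ht₁
  set E : ℂ × ℂ → ℂ × ℂ × ℂ × ℂ := fun p =>
    (a + (p.1 - s₁) * α, b + (p.1 - s₁) * β, c + (p.2 - t₁) * α, e + (p.2 - t₁) * β) with hE
  have hEc : Continuous E := by rw [hE]; fun_prop
  have hE1 : E (s₁, t₁) = (a, b, c, e) := by simp [hE]
  have hN : E ⁻¹' (W ∩ {M | dt M ≠ 0}) ∈ 𝓝 (s₁, t₁) := by
    apply hEc.continuousAt.preimage_mem_nhds
    rw [hE1]
    exact inter_mem (hW.mem_nhds hM₁) (continuous_dt.continuousAt.eventually_ne hdt)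
  obtain ⟨p, ⟨hp1, hp2⟩, hpA⟩ := pr_dense hA hne hN
  refine ⟨E p, hp1, hp2, ?_⟩
  have e1 : (E p).1 * u + (E p).2.1 * v = p.1 := by
    simp only [hE]
    linear_combination (p.1 - s₁) * hαβ + hs₁ - hs₁
  have e2 : (E p).2.2.1 * u + (E p).2.2.2 * v = p.2 := by
    simp only [hE]
    linear_combination (p.2 - t₁) * hαβ
  rw [e1, e2]
  exact hpA

/-- For a residual set of matrices, countably many given points are mapped into a given dense open
set. -/
theorem residual_moeb {A : Set (OnePoint ℂ)} (hA : Dense A) (hAo : IsOpen A)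
    {S : Set (OnePoint ℂ)} (hS : S.Countable) :
    ∀ᶠ M in residual (ℂ × ℂ × ℂ × ℂ), dt M ≠ 0 ∧ ∀ u v : ℂ, (u ≠ 0 ∨ v ≠ 0) → pr u v ∈ S →
      pr (M.1 * u + M.2.1 * v) (M.2.2.1 * u + M.2.2.2 * v) ∈ A := by
  have hdt : ∀ᶠ M in residual (ℂ × ℂ × ℂ × ℂ), dt M ≠ 0 := by
    apply residual_of_dense_open
    · exact isOpen_ne.preimage continuous_dt
    · rw [dense_iff_inter_open]
      rintro W hW ⟨M, hM⟩
      obtain ⟨M', h1, h2⟩ := dt_dense hW hM
      exact ⟨M', h1, h2⟩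
  have hall : ∀ᶠ M in residual (ℂ × ℂ × ℂ × ℂ), ∀ x ∈ S, ∀ u v : ℂ, (u ≠ 0 ∨ v ≠ 0) →
      pr u v = x → pr (M.1 * u + M.2.1 * v) (M.2.2.1 * u + M.2.2.2 * v) ∈ A := by
    rw [eventually_countable_ball hS]
    intro x hx
    obtain ⟨u, v, huv, rfl⟩ := exists_pr x
    filter_upwards [residual_of_dense_open (isOpen_Gd hAo huv) (dense_Gd hA huv)] with M hM
    intro u' v' huv' heq
    have h1 := pr_eq_pr huv' huv heq
    -- `(u', v') = c (u, v)`
    obtain ⟨c, hc0, hcu, hcv⟩ : ∃ c : ℂ, c ≠ 0 ∧ u' = c * u ∧ v' = c * v := by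
      rcases huv with hu | hv
      · refine ⟨u' / u, ?_, by field_simp, ?_⟩
        · intro h0
          rw [div_eq_zero_iff, or_iff_left hu] at h0
          rw [h0, zero_mul] at h1
          have h2 : v' = 0 := (mul_eq_zero.1 h1.symm).resolve_left hu
          rcases huv' with h | h
          · exact h h0
          · exact h h2
        · field_simp
          linear_combination (-1 : ℂ) * h1
      · refine ⟨v' / v, ?_, ?_, by field_simp⟩
        · intro h0
          rw [div_eq_zero_iff, or_iff_left hv] at h0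
          rw [h0, mul_zero] at h1
          have h2 : u' = 0 := (mul_eq_zero.1 h1).resolve_right hv
          rcases huv' with h | h
          · exact h h2
          · exact h h0
        · field_simp
          linear_combination h1
    have e1 : M.1 * u' + M.2.1 * v' = c * (M.1 * u + M.2.1 * v) := by rw [hcu, hcv]; ring
    have e2 : M.2.2.1 * u' + M.2.2.2 * v' = c * (M.2.2.1 * u + M.2.2.2 * v) := by
      rw [hcu, hcv]; ring
    rw [e1, e2, pr_smul hc0]
    exact hM.2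
  filter_upwards [hdt, hall] with M h1 h2
  exact ⟨h1, fun u v huv hx => h2 _ hx u v huv rfl⟩

end Pool.Agent.X88.HI
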