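import Mathlib
import Pool.Agent.Helper114.Chart
import Pool.Agent.Helper114.KRat
import Pool.Agent.H762R2.RtA

/-!
# Holomorphic self-maps of the sphere: traps
-/

set_option autoImplicit false

open Set Filter Topology
open scoped OnePoint

namespace Pool.Agent.X88.HI

open Pool.Agent.Helper114.Herman Pool.Agent.Helper114.Konig
open Pool.Agent.H762R2.Rt (Sinks disc_contraction)

/-- Holomorphic self-maps of the sphere. -/
def Hol (F : OnePoint ℂ → OnePoint ℂ) : Prop :=
  ∀ (φ : ℂ → OnePoint ℂ) (z : ℂ), HolAt φ z → HolAt (fun w => F (φ w)) z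

theorem Hol.comp {F G : OnePoint ℂ → OnePoint ℂ} (hF : Hol F) (hG : Hol G) : Hol (F ∘ G) :=
  fun φ z h => hF _ z (hG φ z h)

theorem hol_id : Hol id := fun _ _ h => h

theorem Hol.iter {F : OnePoint ℂ → OnePoint ℂ} (hF : Hol F) (n : ℕ) : Hol F^[n] := by
  induction n with
  | zero => exact hol_id
  | succ n ih =>
    rw [Function.iterate_succ]
    exact ih.comp hF

theorem hol_rat {F : OnePoint ℂ → OnePoint ℂ} {P Q : Polynomial ℂ} (hF : IsRat F P Q)
    (hd0 : 0 < max P.natDegree Q.natDegree) : Hol F := fun _ _ h => h.rat hF hd0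

/-- A holomorphic map which maps a disc into a much smaller concentric disc has an attracting fixed
point there. -/
theorem trap {F : OnePoint ℂ → OnePoint ℂ} (hF : Hol F) {b : Bool} {a : ℂ}
    {η : ℝ} (hη : 0 < η)
    (hmap : ∀ w, ‖w - a‖ ≤ η → ∃ w', ‖w' - a‖ ≤ η / 4 ∧ F (kap b w) = kap b w') :
    ∃ p : ℂ, ‖p - a‖ < η ∧ F (kap b p) = kap b p ∧
      ∀ w, ‖w - a‖ ≤ η → Tendsto (fun k : ℕ => F^[k] (kap b w)) atTop (𝓝 (kap b p)) := by
  choose! u hu1 hu2 using hmap
  have hinj := (isOpenEmbedding_kap b).injective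
  have han : ∀ w, ‖w - a‖ < η → AnalyticAt ℂ u w := by
    intro w hw
    have h1 : HolAt (fun w => F (kap b w)) w := hF _ w (holAt_kap b w)
    obtain ⟨g, hg, -, hev⟩ := h1.exists_kap (hu2 w hw.le)
    refine hg.congr ?_
    have hopen : ∀ᶠ w' in 𝓝 w, ‖w' - a‖ < η :=
      (continuous_id.sub continuous_const).norm.continuousAt.eventually_lt continuousAt_const hw
    filter_upwards [hev, hopen] with w' h' hw'
    exact hinj (by rw [← h', ← hu2 w' hw'.le])
  set H : ℂ → ℂ := fun x => u (a + x) - a with hH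
  have hHan : ∀ x, ‖x‖ < η → DifferentiableAt ℂ H x := by
    intro x hx
    have h1 : AnalyticAt ℂ u (a + x) := han _ (by simpa using hx)
    have h2 : DifferentiableAt ℂ (fun x => a + x) x := by fun_prop
    exact ((h1.differentiableAt.comp x h2)).sub_const a
  have hHb : ∀ x, ‖x‖ ≤ η → ‖H x‖ ≤ η / 4 := by
    intro x hx
    exact hu1 _ (by simpa using hx)
  have hder : ∀ x, ‖x‖ ≤ η / 3 → ‖deriv H x‖ ≤ 1 / 2 := by
    intro x hx
    have hcl : ∀ y ∈ Metric.closedBall x (η / 2), ‖y‖ < η := by
      intro y hy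
      rw [Metric.mem_closedBall, dist_eq_norm] at hy
      have h1 : ‖y‖ ≤ ‖y - x‖ + ‖x‖ := by
        simpa using norm_add_le (y - x) x
      linarith
    have hd : DiffContOnCl ℂ H (Metric.ball x (η / 2)) := by
      apply DifferentiableOn.diffContOnCl
      intro y hy
      have hy' := Metric.closure_ball_subset_closedBall hy
      exact (hHan y (hcl y hy')).differentiableWithinAt
    have h2 := Complex.norm_deriv_le_of_forall_mem_sphere_norm_le (c := x) (R := η / 2)
      (C := η / 4) (by linarith) hd (fun z hz => hHb z (hcl z (Metric.sphere_subset_closedBall hz)).le)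
    refine h2.trans (le_of_eq ?_)
    field_simp
    norm_num
  have hconv : Convex ℝ (Metric.closedBall (0 : ℂ) (η / 3)) := convex_closedBall _ _
  obtain ⟨p₀, hp1, hp2, hp3⟩ := disc_contraction (H := H) (r := η / 3) (q := 1 / 2) (by linarith)
    (by norm_num) (by norm_num)
    (fun x hx => (hHb x (by linarith)).trans_lt (by linarith))
    (by
      intro x y hx hy
      have h3 := hconv.norm_image_sub_le_of_norm_deriv_le (f := H) (C := 1 / 2) (x := y) (y := x)
        (fun z hz => hHan z (by
          rw [mem_closedBall_zero_iff] at hz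
          linarith))
        (fun z hz => hder z (by rwa [mem_closedBall_zero_iff] at hz))
        (by rwa [mem_closedBall_zero_iff]) (by rwa [mem_closedBall_zero_iff])
      exact h3)
  have hstep : ∀ x, ‖x‖ ≤ η → F (kap b (a + x)) = kap b (a + H x) := by
    intro x hx
    rw [hu2 _ (by simpa using hx), hH]
    congr 1
    ring
  have hinv : ∀ k : ℕ, ∀ x, ‖x‖ ≤ η / 3 → ‖H^[k] x‖ ≤ η / 3 ∧
      F^[k] (kap b (a + x)) = kap b (a + H^[k] x) := by
    intro k
    induction k with
    | zero => intro x hx; exact ⟨hx, rfl⟩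
    | succ k ih =>
      intro x hx
      obtain ⟨h1, h2⟩ := ih x hx
      rw [Function.iterate_succ_apply', Function.iterate_succ_apply', h2]
      exact ⟨(hHb _ (by linarith)).trans (by linarith), hstep _ (by linarith)⟩
  refine ⟨a + p₀, by simpa using hp1.trans (by linarith), ?_, ?_⟩
  · rw [hstep p₀ (by linarith), hp2]
  · intro w hw
    have h1 : ‖w - a‖ ≤ η := hw
    have h2 := hstep (w - a) h1
    rw [add_sub_cancel] at h2
    have h3 : ‖H (w - a)‖ ≤ η / 3 := (hHb _ h1).trans (by linarith)
    rw [← tendsto_add_atTop_iff_nat 1]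
    have h4 : Tendsto (fun k : ℕ => kap b (a + H^[k] (H (w - a)))) atTop (𝓝 (kap b (a + p₀))) :=
      ((isOpenEmbedding_kap b).continuous.tendsto _).comp ((hp3 _ h3).const_add a)
    refine h4.congr fun k => ?_
    rw [Function.iterate_succ_apply, h2, (hinv k _ h3).2]

/-- If the image is attracted, so is the point. -/
theorem sinks_of_image {X : Type*} [TopologicalSpace X] {g : X → X} (hg : Continuous g) {c : X}
    (h : Sinks g (g c)) : Sinks g c := by
  obtain ⟨z, n, hn, hz, ⟨U, hU, hUt⟩, hc⟩ := h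
  obtain ⟨m, rfl⟩ : ∃ m, n = m + 1 := ⟨n - 1, by omega⟩
  have hcomm : ∀ (k : ℕ) (x : X), g^[(m + 1) * (k + 1)] x = g^[m] (g^[(m + 1) * k] (g x)) := by
    intro k x
    have e : (m + 1) * (k + 1) = (m + (m + 1) * k) + 1 := by ring
    rw [e, Function.iterate_succ_apply, Function.iterate_add_apply]
  refine ⟨g^[m] z, m + 1, hn, ?_, ⟨g ⁻¹' U, ?_, ?_⟩, ?_⟩
  · rw [← Function.iterate_add_apply, add_comm, Function.iterate_add_apply, hz]
  · apply hg.continuousAt.preimage_mem_nhds
    rw [← Function.iterate_succ_apply' g, hz]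
    exact hU
  · intro w hw
    have h1 := ((hg.iterate m).tendsto z).comp (hUt _ hw)
    rw [← tendsto_add_atTop_iff_nat 1]
    refine h1.congr fun k => ?_
    rw [hcomm]
    rfl
  · have h1 := ((hg.iterate m).tendsto z).comp hc
    rw [← tendsto_add_atTop_iff_nat 1]
    refine h1.congr fun k => ?_
    rw [hcomm]
    rfl

theorem sinks_of_iterate {X : Type*} [TopologicalSpace X] {g : X → X} (hg : Continuous g) {c : X}
    {m : ℕ} (h : Sinks g (g^[m] c)) : Sinks g c := by
  induction m with
  | zero => exact h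
  | succ m ih =>
    rw [Function.iterate_succ_apply'] at h
    exact ih (sinks_of_image hg h)

end Pool.Agent.X88.HI
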