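import Pool.Agent.X88.HI.A

/-!
# The maps `f ∘ g^[n]`: the attractor
-/

set_option autoImplicit false

open Set Filter Topology
open scoped OnePoint

namespace Pool.Agent.X88.HI

open Pool.Agent.Helper114.Herman Pool.Agent.Helper114.Konig
open Pool.Agent.H762R2.Rt (Sinks)

/-- The iterates `g^[p k]` converge to `a` uniformly on the open set `U` which contains `x`. -/
def UL (g : OnePoint ℂ → OnePoint ℂ) (x : OnePoint ℂ) (p : ℕ) (a : OnePoint ℂ)
    (U : Set (OnePoint ℂ)) : Prop :=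
  0 < p ∧ IsOpen U ∧ x ∈ U ∧ ∀ V ∈ 𝓝 a, ∀ᶠ k : ℕ in atTop, ∀ y ∈ U, g^[p * k] y ∈ V

/-- Near `x` the iterates of `g` converge uniformly to a cycle. -/
def Settled (g : OnePoint ℂ → OnePoint ℂ) (x : OnePoint ℂ) : Prop :=
  ∃ (p : ℕ) (a : OnePoint ℂ) (U : Set (OnePoint ℂ)), UL g x p a U

theorem isOpen_settled (g : OnePoint ℂ → OnePoint ℂ) : IsOpen {x | Settled g x} := by
  rw [isOpen_iff_mem_nhds]
  rintro x ⟨p, a, U, hp, hU, hx, h⟩
  filter_upwards [hU.mem_nhds hx] with y hy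
  exact ⟨p, a, U, hp, hU, hy, h⟩

theorem UL.residue {g : OnePoint ℂ → OnePoint ℂ} (hg : Continuous g) {x a : OnePoint ℂ} {p : ℕ}
    {U : Set (OnePoint ℂ)} (h : UL g x p a U) {V : ℕ → Set (OnePoint ℂ)}
    (hV : ∀ r < p, V r ∈ 𝓝 (g^[r] a)) : ∀ᶠ n : ℕ in atTop, ∀ y ∈ U, g^[n] y ∈ V (n % p) := by
  obtain ⟨hp, hU, hx, h⟩ := h
  have h1 : ∀ᶠ k : ℕ in atTop, ∀ r < p, ∀ y ∈ U, g^[r] (g^[p * k] y) ∈ V r := by
    have h2 : ∀ᶠ k : ℕ in atTop, ∀ r ∈ Finset.range p, ∀ y ∈ U, g^[r] (g^[p * k] y) ∈ V r := by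
      rw [Filter.eventually_all_finset]
      intro r hr
      exact h (g^[r] ⁻¹' V r) ((hg.iterate r).continuousAt.preimage_mem_nhds
        (hV r (Finset.mem_range.1 hr)))
    filter_upwards [h2] with k hk r hr
    exact hk r (Finset.mem_range.2 hr)
  obtain ⟨K, hK⟩ := eventually_atTop.1 h1
  filter_upwards [eventually_ge_atTop (p * K)] with n hn y hy
  have h3 : K ≤ n / p := (Nat.le_div_iff_mul_le hp).2 (by rw [mul_comm]; exact hn)
  have h4 := hK (n / p) h3 (n % p) (Nat.mod_lt _ hp) y hy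
  rwa [← Function.iterate_add_apply, Nat.mod_add_div] at h4

theorem core {f g : OnePoint ℂ → OnePoint ℂ} (hf : Continuous f) (hg : Continuous g) (hfh : Hol f)
    (hgh : Hol g) {K : Set (OnePoint ℂ)} (hK : IsCompact K) (hKs : ∀ x ∈ K, Settled g x)
    (hlim : ∀ x ∈ K, ∀ p a U, UL g x p a U → ∀ r : ℕ, f (g^[r] a) ∈ K) :
    ∀ᶠ n : ℕ in atTop, ∀ y ∈ K, Sinks (f ∘ g^[n]) y := by
  classical
  choose! p a U hUL using hKs
  obtain ⟨t, htK, htc⟩ := hK.elim_nhds_subcover U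
    fun x hx => (hUL x hx).2.1.mem_nhds (hUL x hx).2.2.1
  set X : Finset (OnePoint ℂ) :=
    t.biUnion fun x => (Finset.range (p x)).image fun r => f (g^[r] (a x)) with hX
  have hXmem : ∀ x ∈ t, ∀ r < p x, f (g^[r] (a x)) ∈ X := by
    intro x hx r hr
    rw [hX, Finset.mem_biUnion]
    exact ⟨x, hx, Finset.mem_image.2 ⟨r, Finset.mem_range.2 hr, rfl⟩⟩
  have hXK : ∀ y ∈ X, y ∈ K := by
    intro y hy
    rw [hX, Finset.mem_biUnion] at hy
    obtain ⟨x, hx, hy⟩ := hy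
    obtain ⟨r, -, rfl⟩ := Finset.mem_image.1 hy
    exact hlim x (htK x hx) _ _ _ (hUL x (htK x hx)) r
  have hcov : ∀ y ∈ K, ∃ x ∈ t, y ∈ U x := by
    intro y hy
    have := htc hy
    rw [Set.mem_iUnion₂] at this
    obtain ⟨x, hx, h⟩ := this
    exact ⟨x, hx, h⟩
  choose! j hjt hjU using hcov
  choose b α hbα using exists_kap
  have hη : ∀ y ∈ X, ∃ η : ℝ, 0 < η ∧ ∀ w, ‖w - α y‖ ≤ η → kap (b y) w ∈ U (j y) := by
    intro y hy
    have h1 : U (j y) ∈ 𝓝 (kap (b y) (α y)) := by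
      rw [← hbα y]
      exact (hUL _ (htK _ (hjt y (hXK y hy)))).2.1.mem_nhds (hjU y (hXK y hy))
    have h2 := (isOpenEmbedding_kap (b y)).continuous.continuousAt.preimage_mem_nhds h1
    obtain ⟨η, hη, h3⟩ := Metric.nhds_basis_closedBall.mem_iff.1 h2
    refine ⟨η, hη, fun w hw => h3 ?_⟩
    rw [Metric.mem_closedBall, dist_eq_norm]
    exact hw
  choose! η hη0 hηU using hη
  have hev : ∀ᶠ n : ℕ in atTop, ∀ x ∈ t, ∀ y ∈ U x, ∃ w,
      ‖w - α (f (g^[n % p x] (a x)))‖ ≤ η (f (g^[n % p x] (a x))) / 4 ∧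
      f (g^[n] y) = kap (b (f (g^[n % p x] (a x)))) w := by
    rw [Filter.eventually_all_finset]
    intro x hx
    have h1 := (hUL x (htK x hx)).residue hg (V := fun r => f ⁻¹' (kap (b (f (g^[r] (a x)))) ''
      Metric.ball (α (f (g^[r] (a x)))) (η (f (g^[r] (a x))) / 4))) (by
        intro r hr
        apply hf.continuousAt.preimage_mem_nhds
        have h2 := hη0 _ (hXmem x hx r hr)
        have h3 : kap (b (f (g^[r] (a x)))) '' Metric.ball (α (f (g^[r] (a x))))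
            (η (f (g^[r] (a x))) / 4) ∈ 𝓝 (kap (b (f (g^[r] (a x)))) (α (f (g^[r] (a x))))) := by
          rw [nhds_kap]
          exact image_mem_map (Metric.ball_mem_nhds _ (by linarith))
        rwa [← hbα] at h3)
    filter_upwards [h1] with n hn y hy
    obtain ⟨w, hw, hw'⟩ := hn y hy
    refine ⟨w, ?_, hw'.symm⟩
    rw [Metric.mem_ball, dist_eq_norm] at hw
    exact hw.le
  filter_upwards [hev] with n hn
  set F : OnePoint ℂ → OnePoint ℂ := f ∘ g^[n] with hF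
  have hFc : Continuous F := hf.comp (hg.iterate n)
  have hFh : Hol F := hfh.comp (hgh.iter n)
  set τ : OnePoint ℂ → OnePoint ℂ := fun y => f (g^[n % p (j y)] (a (j y))) with hτ
  have hτX : ∀ y ∈ K, τ y ∈ X := fun y hy =>
    hXmem _ (hjt y hy) _ (Nat.mod_lt _ (hUL _ (htK _ (hjt y hy))).1)
  have hstep : ∀ y ∈ X, ∀ w, ‖w - α y‖ ≤ η y →
      ∃ w', ‖w' - α (τ y)‖ ≤ η (τ y) / 4 ∧ F (kap (b y) w) = kap (b (τ y)) w' :=
    fun y hy w hw => hn _ (hjt y (hXK y hy)) _ (hηU y hy w hw)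
  have hit : ∀ (k : ℕ), ∀ y ∈ X, τ^[k] y ∈ X ∧ ∀ w, ‖w - α y‖ ≤ η y → (0 < k →
      ∃ w', ‖w' - α (τ^[k] y)‖ ≤ η (τ^[k] y) / 4 ∧ F^[k] (kap (b y) w) = kap (b (τ^[k] y)) w') := by
    intro k
    induction k with
    | zero => intro y hy; exact ⟨hy, fun w hw h => absurd h (lt_irrefl _)⟩
    | succ k ih =>
      intro y hy
      obtain ⟨h1, h2⟩ := ih y hy
      rw [Function.iterate_succ_apply']
      refine ⟨hτX _ (hXK _ h1), fun w hw _ => ?_⟩
      rw [Function.iterate_succ_apply']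
      rcases Nat.eq_zero_or_pos k with rfl | hk
      · exact hstep _ h1 _ hw
      · obtain ⟨w', h3, h4⟩ := h2 w hw hk
        rw [h4]
        exact hstep _ h1 _ (h3.trans (by have := hη0 _ h1; linarith))
  intro y hy
  -- the first step
  obtain ⟨w₀, hw₀, hw₀'⟩ := hn _ (hjt y hy) y (hjU y hy)
  have hx₀ : τ y ∈ X := hτX y hy
  -- a repetition
  obtain ⟨i, i', hii, hrep⟩ := Set.Finite.exists_lt_map_eq_of_forall_mem
    (f := fun k : ℕ => τ^[k] (τ y)) (t := (X : Set (OnePoint ℂ)))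
    (fun k => (hit k (τ y) hx₀).1) X.finite_toSet
  replace hrep : τ^[i] (τ y) = τ^[i'] (τ y) := hrep
  set e := τ^[i] (τ y) with he
  obtain ⟨q, hq⟩ : ∃ q, i' = q + i := ⟨i' - i, by omega⟩
  have hq0 : 0 < q := by omega
  have heX : e ∈ X := (hit i (τ y) hx₀).1
  have hper : τ^[q] e = e := by
    rw [he, ← Function.iterate_add_apply, ← hq]
    exact hrep.symm
  have hmap : ∀ w, ‖w - α e‖ ≤ η e → ∃ w', ‖w' - α e‖ ≤ η e / 4 ∧
      F^[q] (kap (b e) w) = kap (b e) w' := by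
    intro w hw
    have h1 := (hit q e heX).2 w hw hq0
    rwa [hper] at h1
  obtain ⟨z, hz1, hz2, hz3⟩ := trap (hFh.iter q) (hη0 e heX) hmap
  -- the orbit of `y` enters the disc around `e`
  have hy1 : ∃ w, ‖w - α e‖ ≤ η e ∧ F^[i + 1] y = kap (b e) w := by
    rw [Function.iterate_succ_apply]
    have h0 : F y = kap (b (τ y)) w₀ := hw₀'
    rw [h0]
    have hpos := hη0 _ hx₀
    have hw1 : ‖w₀ - α (τ y)‖ ≤ η (τ y) := hw₀.trans (by
      have : η (τ y) / 4 ≤ η (τ y) := by linarith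
      exact this)
    rcases Nat.eq_zero_or_pos i with hi | hi
    · subst hi
      exact ⟨w₀, hw1, rfl⟩
    · obtain ⟨w', h3, h4⟩ := (hit i (τ y) hx₀).2 w₀ hw1 hi
      exact ⟨w', h3.trans (by have := hη0 e heX; linarith), h4⟩
  obtain ⟨w, hw, hwy⟩ := hy1
  apply sinks_of_iterate hFc (m := i + 1)
  refine ⟨kap (b e) z, q, hq0, hz2, ⟨kap (b e) '' Metric.ball (α e) (η e), ?_, ?_⟩, ?_⟩
  · rw [nhds_kap]
    apply image_mem_map
    apply Metric.isOpen_ball.mem_nhds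
    rw [Metric.mem_ball, dist_eq_norm]
    exact hz1
  · rintro _ ⟨w', hw', rfl⟩
    rw [Metric.mem_ball, dist_eq_norm] at hw'
    refine (hz3 w' hw'.le).congr fun k => ?_
    rw [Function.iterate_mul]
  · rw [hwy]
    refine (hz3 w hw).congr fun k => ?_
    rw [Function.iterate_mul]

end Pool.Agent.X88.HI
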