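import Pool.Agent.X88.HI.B

/-!
# The maps `f ∘ g^[n]`: critical points
-/

set_option autoImplicit false

open Set Filter Topology
open scoped OnePoint

namespace Pool.Agent.X88.HI

open Pool.Agent.Helper114.Herman Pool.Agent.Helper114.Konig
open Pool.Agent.H762R2.Rt (Sinks)

/-- `f` is not injective on any neighbourhood of `c`. -/
def Crit (f : OnePoint ℂ → OnePoint ℂ) (c : OnePoint ℂ) : Prop := ¬ ∃ U ∈ 𝓝 c, InjOn f U

theorem crit_comp {f g : OnePoint ℂ → OnePoint ℂ} (hg : Continuous g) {c : OnePoint ℂ}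
    (h : Crit (f ∘ g) c) : Crit f (g c) ∨ Crit g c := by
  by_contra hcon
  unfold Crit at h hcon
  push Not at h hcon
  obtain ⟨⟨V, hV, hfV⟩, ⟨U, hU, hgU⟩⟩ := hcon
  apply h (U ∩ g ⁻¹' V) (inter_mem hU (hg.continuousAt.preimage_mem_nhds hV))
  intro x hx y hy hxy
  exact hgU hx.1 hy.1 (hfV hx.2 hy.2 hxy)

theorem crit_iter {g : OnePoint ℂ → OnePoint ℂ} (hg : Continuous g) {c : OnePoint ℂ} {n : ℕ}
    (h : Crit g^[n] c) : ∃ j < n, Crit g (g^[j] c) := by
  induction n with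
  | zero =>
    exfalso
    exact h ⟨univ, univ_mem, fun x _ y _ hxy => hxy⟩
  | succ n ih =>
    rw [Function.iterate_succ'] at h
    rcases crit_comp (hg.iterate n) h with h1 | h1
    · exact ⟨n, n.lt_succ_self, h1⟩
    · obtain ⟨j, hj, h2⟩ := ih h1
      exact ⟨j, hj.trans n.lt_succ_self, h2⟩

theorem one {f g : OnePoint ℂ → OnePoint ℂ} (hf : Continuous f) (hg : Continuous g) (hfh : Hol f)
    (hgh : Hol g) {Lam : Set (OnePoint ℂ)} (hL : IsClosed Lam)
    (h1 : ∀ c, Crit g c → ∀ k : ℕ, 1 ≤ k → g^[k] c ∈ Lam) (h2 : ∀ y, Crit f y → y ∈ Lam)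
    (h3 : ∀ x p a U, UL g x p a U → ∀ r : ℕ, g^[r] a ∈ Lam)
    (hs : ∀ x ∈ Lam, Settled g (f x)) :
    ∀ᶠ n : ℕ in atTop, ∀ c, Crit (f ∘ g^[n]) c → Sinks (f ∘ g^[n]) c := by
  have hK : IsCompact (f '' Lam) := hL.isCompact.image hf
  have hKs : ∀ x ∈ f '' Lam, Settled g x := by
    rintro _ ⟨x, hx, rfl⟩
    exact hs x hx
  filter_upwards [core hf hg hfh hgh hK hKs
    (fun x _ p a U hU r => ⟨_, h3 x p a U hU r, rfl⟩)] with n hn c hc
  apply sinks_of_image (hf.comp (hg.iterate n))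
  apply hn
  refine ⟨g^[n] c, ?_, rfl⟩
  rcases crit_comp (hg.iterate n) hc with h | h
  · exact h2 _ h
  · obtain ⟨j, hj, h4⟩ := crit_iter hg h
    have h5 := h1 _ h4 (n - j) (by omega)
    rwa [← Function.iterate_add_apply, Nat.sub_add_cancel hj.le] at h5

/-- Composition with an injective map does not change the critical points. -/
theorem crit_inj_comp {m f : OnePoint ℂ → OnePoint ℂ} (hm : Function.Injective m)
    {c : OnePoint ℂ} (h : Crit (m ∘ f) c) : Crit f c := by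
  rintro ⟨U, hU, hi⟩
  exact h ⟨U, hU, fun x hx y hy hxy => hi hx hy (hm hxy)⟩

end Pool.Agent.X88.HI
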