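import Pool.Agent.X88.HI.C

/-!
# Compositions of rational maps, Moebius transformations
-/

set_option autoImplicit false

open Set Filter Topology Polynomial
open scoped OnePoint

namespace Pool.Agent.X88.HI

open Pool.Agent.Helper114.Herman Pool.Agent.Helper114.Konig
open Pool.Agent.H762R2.Rt (Sinks)

theorem coprime_iff {P Q : ℂ[X]} : IsCoprime P Q ↔ ∀ z : ℂ, P.eval z ≠ 0 ∨ Q.eval z ≠ 0 := by
  rw [Polynomial.isCoprime_iff_aeval_ne_zero_of_isAlgClosed (K := ℂ) (k := ℂ)]
  simp [Polynomial.coe_aeval_eq_eval]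

/-- The polynomial `B ^ D * P (A / B)`. -/
noncomputable def cmp (P : ℂ[X]) (D : ℕ) (A B : ℂ[X]) : ℂ[X] :=
  ∑ k ∈ Finset.range (D + 1), C (P.coeff k) * A ^ k * B ^ (D - k)

theorem cmp_eval (P : ℂ[X]) (D : ℕ) (A B : ℂ[X]) (z : ℂ) :
    (cmp P D A B).eval z = hom P D (A.eval z) (B.eval z) := by
  unfold cmp hom
  rw [Polynomial.eval_finsetSum]
  simp

theorem cmp_natDegree {P A B : ℂ[X]} {D d : ℕ} (hA : A.natDegree ≤ d) (hB : B.natDegree ≤ d) :
    (cmp P D A B).natDegree ≤ D * d := by
  unfold cmp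
  apply Polynomial.natDegree_sum_le_of_forall_le
  intro k hk
  have hk' : k ≤ D := Nat.lt_succ_iff.1 (Finset.mem_range.1 hk)
  refine Polynomial.natDegree_mul_le.trans ?_
  have h1 : (C (P.coeff k) * A ^ k).natDegree ≤ k * d :=
    (Polynomial.natDegree_C_mul_le _ _).trans
      (Polynomial.natDegree_pow_le.trans (Nat.mul_le_mul_left _ hA))
  have h2 : (B ^ (D - k)).natDegree ≤ (D - k) * d :=
    Polynomial.natDegree_pow_le.trans (Nat.mul_le_mul_left _ hB)
  calc _ ≤ k * d + (D - k) * d := Nat.add_le_add h1 h2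
    _ = D * d := by rw [← Nat.add_mul, Nat.add_sub_cancel' hk']

theorem cmp_coeff {P A B : ℂ[X]} {D d : ℕ} (hA : A.natDegree ≤ d) (hB : B.natDegree ≤ d) :
    (cmp P D A B).coeff (D * d) = hom P D (A.coeff d) (B.coeff d) := by
  unfold cmp hom
  rw [Polynomial.finsetSum_coeff]
  refine Finset.sum_congr rfl fun k hk => ?_
  have hk' : k ≤ D := Nat.lt_succ_iff.1 (Finset.mem_range.1 hk)
  have e : D * d = k * d + (D - k) * d := by rw [← Nat.add_mul, Nat.add_sub_cancel' hk']
  rw [e, Polynomial.coeff_mul_add_eq_of_natDegree_le, Polynomial.coeff_C_mul,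
    Polynomial.coeff_pow_of_natDegree_le hA, Polynomial.coeff_pow_of_natDegree_le hB]
  · exact (Polynomial.natDegree_C_mul_le _ _).trans
      (Polynomial.natDegree_pow_le.trans (Nat.mul_le_mul_left _ hA))
  · exact Polynomial.natDegree_pow_le.trans (Nat.mul_le_mul_left _ hB)

theorem max_natDegree_eq {A B : ℂ[X]} {N : ℕ} (hA : A.natDegree ≤ N) (hB : B.natDegree ≤ N)
    (h : A.coeff N ≠ 0 ∨ B.coeff N ≠ 0) : max A.natDegree B.natDegree = N := by
  apply le_antisymm (max_le hA hB)
  rcases h with h | h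
  · exact (Polynomial.le_natDegree_of_ne_zero h).trans (le_max_left _ _)
  · exact (Polynomial.le_natDegree_of_ne_zero h).trans (le_max_right _ _)

theorem coeff_max {A B : ℂ[X]} (h : IsCoprime A B) :
    A.coeff (max A.natDegree B.natDegree) ≠ 0 ∨ B.coeff (max A.natDegree B.natDegree) ≠ 0 := by
  rcases le_total A.natDegree B.natDegree with h1 | h1
  · rw [max_eq_right h1]
    by_cases hB : B = 0
    · subst hB
      left
      rw [natDegree_zero] at h1 ⊢
      have hA : IsUnit A := isCoprime_zero_right.1 h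
      have hA0 : A ≠ 0 := hA.ne_zero
      rw [Polynomial.eq_C_of_natDegree_le_zero h1] at hA0 ⊢
      simpa using hA0
    · right
      exact Polynomial.leadingCoeff_ne_zero.2 hB
  · rw [max_eq_left h1]
    by_cases hA : A = 0
    · subst hA
      right
      rw [natDegree_zero] at h1 ⊢
      have hB : IsUnit B := isCoprime_zero_left.1 h
      have hB0 : B ≠ 0 := hB.ne_zero
      rw [Polynomial.eq_C_of_natDegree_le_zero h1] at hB0 ⊢
      simpa using hB0
    · left
      exact Polynomial.leadingCoeff_ne_zero.2 hA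

/-- `F` is a rational map of degree `N`. -/
def Rt (F : OnePoint ℂ → OnePoint ℂ) (N : ℕ) : Prop :=
  ∃ A B : ℂ[X], IsRat F A B ∧ max A.natDegree B.natDegree = N

theorem Rt.comp {f g : OnePoint ℂ → OnePoint ℂ} {D d : ℕ} (hf : Rt f D) (hg : Rt g d)
    (hD : 0 < D) (hd : 0 < d) : Rt (f ∘ g) (D * d) := by
  obtain ⟨P, Q, hf, hPQ⟩ := hf
  obtain ⟨A, B, hg, hAB⟩ := hg
  have hA : A.natDegree ≤ d := hAB ▸ le_max_left _ _
  have hB : B.natDegree ≤ d := hAB ▸ le_max_right _ _
  have hdeg : max (cmp P D A B).natDegree (cmp Q D A B).natDegree = D * d := by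
    apply max_natDegree_eq (cmp_natDegree hA hB) (cmp_natDegree hA hB)
    rw [cmp_coeff hA hB, cmp_coeff hA hB]
    have h1 := coeff_max hg.cop
    rw [hAB] at h1
    exact hom_not_both hf.cop hPQ.symm h1 hD
  have hcop : IsCoprime (cmp P D A B) (cmp Q D A B) := by
    rw [coprime_iff]
    intro z
    rw [cmp_eval, cmp_eval]
    exact hom_not_both hf.cop hPQ.symm (coprime_iff.1 hg.cop z) hD
  refine ⟨cmp P D A B, cmp Q D A B, ⟨hf.cont.comp hg.cont, hcop, ?_, ?_⟩, hdeg⟩
  · intro h0
    rw [h0] at hcop hdeg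
    have h1 : IsUnit (cmp P D A B) := isCoprime_zero_right.1 hcop
    rw [Polynomial.natDegree_eq_zero_of_isUnit h1, natDegree_zero, max_self] at hdeg
    have := Nat.mul_pos hD hd
    omega
  · intro z hz
    have h1 : g (z : OnePoint ℂ) = pr (A.eval z) (B.eval z) := by
      have h2 := rat_formula hg hAB.symm hd (u := z) (v := 1) (Or.inr one_ne_zero)
      rw [pr_one, hom_ne hA one_ne_zero, hom_ne hB one_ne_zero] at h2
      simpa using h2
    rw [Function.comp_apply, h1, rat_formula hf hPQ.symm hD (coprime_iff.1 hg.cop z),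
      ← cmp_eval, ← cmp_eval, pr_ne hz]

theorem rt_id : Rt id 1 := by
  refine ⟨X, 1, ⟨continuous_id, isCoprime_one_right, one_ne_zero, fun z _ => by simp⟩, by simp⟩

theorem Rt.iter {g : OnePoint ℂ → OnePoint ℂ} {d : ℕ} (hg : Rt g d) (hd : 0 < d) (n : ℕ) :
    Rt g^[n] (d ^ n) := by
  induction n with
  | zero => simpa using rt_id
  | succ n ih =>
    rw [Function.iterate_succ, pow_succ]
    exact ih.comp hg (pow_pos hd n) hd

/-- A formula on the sphere for the map of a pair of coprime polynomials. -/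
theorem map_eq {F : OnePoint ℂ → OnePoint ℂ} {A B : ℂ[X]} (hF : IsRat F A B)
    (hN : 0 < max A.natDegree B.natDegree) (z : ℂ) :
    F (z : OnePoint ℂ) = pr (A.eval z) (B.eval z) := by
  have h2 := rat_formula hF rfl hN (u := z) (v := 1) (Or.inr one_ne_zero)
  rw [pr_one, hom_ne (le_max_left _ _) one_ne_zero, hom_ne (le_max_right _ _) one_ne_zero] at h2
  simpa using h2

/-- The Moebius transformation with the matrix `(a, b; c, e)`. -/
theorem exists_moeb {a b c e : ℂ} (h : a * e - b * c ≠ 0) :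
    ∃ m : OnePoint ℂ → OnePoint ℂ, Continuous m ∧ Function.Injective m ∧ Rt m 1 ∧
      ∀ u v : ℂ, (u ≠ 0 ∨ v ≠ 0) → m (pr u v) = pr (a * u + b * v) (c * u + e * v) := by
  set P : ℂ[X] := C a * X + C b with hP
  set Q : ℂ[X] := C c * X + C e with hQ
  have hcop : IsCoprime P Q := by
    rw [coprime_iff]
    intro z
    by_contra hcon
    push Not at hcon
    obtain ⟨h1, h2⟩ := hcon
    simp only [hP, hQ, eval_add, eval_mul, eval_C, eval_X] at h1 h2
    apply h
    linear_combination (-c) * h1 * 1 + a * h2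
  have hPd : P.natDegree ≤ 1 := by
    rw [hP]; exact natDegree_linear_le
  have hQd : Q.natDegree ≤ 1 := by
    rw [hQ]; exact natDegree_linear_le
  have hco : P.coeff 1 = a ∧ Q.coeff 1 = c ∧ P.coeff 0 = b ∧ Q.coeff 0 = e := by
    simp [hP, hQ]
  have hdeg : max P.natDegree Q.natDegree = 1 := by
    apply max_natDegree_eq hPd hQd
    rw [hco.1, hco.2.1]
    by_contra hcon
    push Not at hcon
    apply h
    rw [hcon.1, hcon.2]
    ring
  have hQ0 : Q ≠ 0 := by
    intro h0
    have h1 := hco.2.1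
    have h2 := hco.2.2.2
    rw [h0, coeff_zero] at h1 h2
    apply h
    rw [← h1, ← h2]
    ring
  obtain ⟨m, hm, -⟩ := exists_isRat hcop hQ0
  have hform : ∀ u v : ℂ, (u ≠ 0 ∨ v ≠ 0) → m (pr u v) = pr (a * u + b * v) (c * u + e * v) := by
    intro u v huv
    rw [rat_formula hm hdeg.symm one_pos huv]
    have e1 : hom P 1 u v = a * u + b * v := by
      rw [hom, Finset.sum_range_succ, Finset.sum_range_one, hco.1, hco.2.2.1]
      simp
      ring
    have e2 : hom Q 1 u v = c * u + e * v := by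
      rw [hom, Finset.sum_range_succ, Finset.sum_range_one, hco.2.1, hco.2.2.2]
      simp
      ring
    rw [e1, e2]
  have hne : ∀ u v : ℂ, (u ≠ 0 ∨ v ≠ 0) → a * u + b * v ≠ 0 ∨ c * u + e * v ≠ 0 := by
    intro u v huv
    by_contra hcon
    push Not at hcon
    obtain ⟨h1, h2⟩ := hcon
    rcases huv with hu | hv
    · apply hu
      have : (a * e - b * c) * u = 0 := by linear_combination e * h1 - b * h2
      exact (mul_eq_zero.1 this).resolve_left h
    · apply hv
      have : (a * e - b * c) * v = 0 := by linear_combination a * h2 - c * h1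
      exact (mul_eq_zero.1 this).resolve_left h
  refine ⟨m, hm.cont, ?_, ⟨P, Q, hm, hdeg⟩, hform⟩
  intro x y hxy
  obtain ⟨u, v, huv, rfl⟩ := exists_pr x
  obtain ⟨s, t, hst, rfl⟩ := exists_pr y
  rw [hform u v huv, hform s t hst] at hxy
  have h1 := pr_eq_pr (hne u v huv) (hne s t hst) hxy
  have h2 : (a * e - b * c) * (u * t - s * v) = 0 := by linear_combination h1
  have h3 : u * t - s * v = 0 := (mul_eq_zero.1 h2).resolve_left h
  by_cases hv : v = 0
  · have hu : u ≠ 0 := by simpa [hv] using huv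
    have ht : t = 0 := by
      rw [hv, mul_zero, sub_zero] at h3
      exact (mul_eq_zero.1 h3).resolve_left hu
    rw [hv, ht, pr_zero, pr_zero]
  · have ht : t ≠ 0 := by
      intro h0
      rw [h0, mul_zero, zero_sub, neg_eq_zero] at h3
      have hs : s ≠ 0 := by simpa [h0] using hst
      exact hv ((mul_eq_zero.1 h3).resolve_left hs)
    rw [pr_ne hv, pr_ne ht]
    congr 1
    rw [div_eq_div_iff hv ht]
    linear_combination h3

end Pool.Agent.X88.HI
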